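import Pool.Agent.Y535.RZ.SEL17
import Pool.Agent.Y448.RZ.Gen

/-!
# Project MT: reciprocity at the three large primes, local computations
-/

set_option autoImplicit false

namespace Pool.Agent.Y232.MT

open Finset Pool.Agent.W262.RK Pool.Agent.W307.RT Pool.Agent.W307.RS Pool.Agent.W307.SE
  Pool.Agent.W307.FK Pool.Agent.Y667.RP Pool.Agent.Y667.RZ Pool.Agent.Y535.RZ

open NumberTheorySymbols

/-! ### Boolean part -/

lemma bA : ∀ e neg α β γ η v h g : Bool, xor α β = e → xor α γ = neg → xor η β = neg →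
    xor h g = (v && neg) →
    xor (hb e v h v g) (xor (hb e v h true α) (hb e true β v g)) = false ∧
    xor (hb e v h true α) (hb e true γ v g) = false ∧
    xor (hb e v h true η) (hb e true β v g) = false := by decide

lemma bM : ∀ e α β γ η h g : Bool,
    xor (hb e false h false g) (xor (hb e false h true α) (hb e true β false g)) = xor h g ∧
    xor (hb e false h true α) (hb e true γ false g) = xor h g ∧
    xor (hb e false h true η) (hb e true β false g) = xor h g := by decide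

lemma bB : ∀ e neg β γ v h g : Bool, g = (v && neg) →
    xor (hb e v h false g) (xor (hb e v h false neg) (hb e false β false g)) = false ∧
    xor (hb e v h false neg) (hb e true γ false g) = false ∧
    xor (hb e v h false false) (hb e false β false g) = false := by decide

lemma bN : ∀ e α β γ η h g : Bool,
    xor (hb e false h false g) (xor (hb e false h false α) (hb e false β false g)) = false ∧
    xor (hb e false h false α) (hb e true γ false g) = g ∧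
    xor (hb e false h false η) (hb e false β false g) = false := by decide

lemma bC : ∀ e neg α η w h g : Bool, h = (w && neg) →
    xor (hb e false h w g) (xor (hb e false h false α) (hb e false neg w g)) = false ∧
    xor (hb e false h false α) (hb e false false w g) = false ∧
    xor (hb e false h true η) (hb e false neg w g) = false := by decide

lemma bL : ∀ e α β γ η h g : Bool,
    xor (hb e false h false g) (xor (hb e false h false α) (hb e false β false g)) = false ∧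
    xor (hb e false h false α) (hb e false γ false g) = false ∧
    xor (hb e false h true η) (hb e false β false g) = h := by decide

lemma b17 : ∀ v w : Bool,
    xor (hb false v false w v) (xor (hb false v false true false) (hb false true false w v)) =
      false ∧
    xor (hb false v false true false) (hb false false false w v) = false ∧
    xor (hb false v false false true) (hb false true false w v) = false := by decide

lemma sg_inj {a b : Bool} (h : sg a = sg b) : a = b := by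
  revert h a b; decide

/-! ### symbols -/

lemma sgn_of {q : ℕ} (hq : q.Prime) {x y : ℤ} (hx : x = q * y) (hy : ¬ (q : ℤ) ∣ y) :
    sg (sgn q x) = J(y | q) := by
  have h1 : (q : ℤ) ∣ x := ⟨y, hx⟩
  have hq0 : (q : ℤ) ≠ 0 := (Nat.prime_iff_prime_int.1 hq).ne_zero
  rw [sgn_dvd h1, hx, Int.mul_ediv_cancel_left _ hq0]
  exact sg_sg0 hq hy

lemma sgn_nd {q : ℕ} (hq : q.Prime) {x : ℤ} (hx : ¬ (q : ℤ) ∣ x) : sg (sgn q x) = J(x | q) := by
  rw [sgn_ndvd hq hx]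
  exact sg_sg0 hq hx

lemma gcd_one {q : ℕ} (hq : q.Prime) {x : ℤ} (hx : ¬ (q : ℤ) ∣ x) : x.gcd q = 1 := by
  rw [Int.gcd_comm, ← Int.isCoprime_iff_gcd_eq_one]
  exact ((Nat.prime_iff_prime_int.1 hq).coprime_iff_not_dvd).2 hx

lemma J_sq {q : ℕ} (hq : q.Prime) {y : ℤ} (hy : ¬ (q : ℤ) ∣ y) (x : ℤ) :
    J(x * y ^ 2 | q) = J(x | q) := by
  rw [jacobiSym.mul_left, jacobiSym.sq_one' (gcd_one hq hy), mul_one]

lemma J_congr {q : ℕ} {x y : ℤ} (h : (q : ℤ) ∣ x - y) : J(x | q) = J(y | q) :=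
  jacobiSym.mod_left' ((Int.ModEq.symm ((Int.modEq_iff_dvd (a := y) (b := x)).2 h)) : x ≡ y [ZMOD q])

section

variable {s : Fin 3 → ℕ} {D : ℕ} (h : Dat s D)
include h

/-- the local data at a prime of the first class -/
lemma locA {q : ℕ} (hq : q.Prime) (hqa : q ∣ s 0) :
    dv q (-((D : ℤ) * s 0)) = true ∧ dv q ((D : ℤ) * s 0) = true ∧
    dv q ((s 0 : ℤ) * s 1) = true ∧ dv q (2 * ((s 0 : ℤ) * s 2)) = true ∧
    xor (sgn q (-((D : ℤ) * s 0))) (sgn q ((D : ℤ) * s 0)) = sg0 q (-1) ∧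
    xor (sgn q (-((D : ℤ) * s 0))) (sgn q ((s 0 : ℤ) * s 1)) = sg0 q (-((D : ℤ) * s 1)) ∧
    xor (sgn q (2 * ((s 0 : ℤ) * s 2))) (sgn q ((D : ℤ) * s 0)) = sg0 q (-((D : ℤ) * s 1)) := by
  have hqi := Nat.prime_iff_prime_int.1 hq
  have hqD : ¬ q ∣ D := h.hD hq hqa
  have hq2 : q ≠ 2 := h.ne2 hqa
  have h1 : ¬ q ∣ s 1 := cop_nd hq h.cop01 hqa
  have h2 : ¬ q ∣ s 2 := cop_nd hq h.cop012 (hqa.mul_right _)
  obtain ⟨a', ha'⟩ := hqa
  have hna' : ¬ q ∣ a' := by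
    intro hh
    obtain ⟨k, hk⟩ := hh
    exact nsq hq (h.sqj 0) ⟨k, by rw [ha', hk]; ring⟩
  have hai : ¬ (q : ℤ) ∣ (a' : ℤ) := by rwa [Int.natCast_dvd_natCast]
  have hbi : ¬ (q : ℤ) ∣ (s 1 : ℤ) := by rwa [Int.natCast_dvd_natCast]
  have hci : ¬ (q : ℤ) ∣ (s 2 : ℤ) := by rwa [Int.natCast_dvd_natCast]
  have hDi : ¬ (q : ℤ) ∣ (D : ℤ) := by rwa [Int.natCast_dvd_natCast]
  have h2i : ¬ (q : ℤ) ∣ (2 : ℤ) := by
    intro hh
    have : q ∣ 2 := by exact_mod_cast hh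
    exact hq2 ((Nat.prime_dvd_prime_iff_eq hq Nat.prime_two).1 this)
  have h4i : ¬ (q : ℤ) ∣ (4 : ℤ) := by
    intro hh
    have h4 : (4 : ℤ) = 2 * 2 := by norm_num
    rw [h4] at hh
    exact (hqi.dvd_or_dvd hh).elim h2i h2i
  have n1 : ¬ (q : ℤ) ∣ -1 := by
    rw [dvd_neg]
    exact hqi.not_dvd_one
  have ea : (s 0 : ℤ) = q * a' := by rw [ha']; push_cast; ring
  have nDa : ¬ (q : ℤ) ∣ (D : ℤ) * a' := fun hh => (hqi.dvd_or_dvd hh).elim hDi hai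
  have nDb : ¬ (q : ℤ) ∣ -((D : ℤ) * s 1) := by
    rw [dvd_neg]
    exact fun hh => (hqi.dvd_or_dvd hh).elim hDi hbi
  have nab : ¬ (q : ℤ) ∣ (a' : ℤ) * s 1 := fun hh => (hqi.dvd_or_dvd hh).elim hai hbi
  have nac : ¬ (q : ℤ) ∣ 2 * ((a' : ℤ) * s 2) := fun hh =>
    (hqi.dvd_or_dvd hh).elim h2i (fun hh => (hqi.dvd_or_dvd hh).elim hai hci)
  have nDa' : ¬ (q : ℤ) ∣ -((D : ℤ) * a') := by rwa [dvd_neg]
  have t1 : sg (sgn q (-((D : ℤ) * s 0))) = J(-((D : ℤ) * a') | q) :=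
    sgn_of hq (by rw [ea]; ring) nDa'
  have t2 : sg (sgn q ((D : ℤ) * s 0)) = J((D : ℤ) * a' | q) :=
    sgn_of hq (by rw [ea]; ring) nDa
  have t3 : sg (sgn q ((s 0 : ℤ) * s 1)) = J((a' : ℤ) * s 1 | q) :=
    sgn_of hq (by rw [ea]; ring) nab
  have t4 : sg (sgn q (2 * ((s 0 : ℤ) * s 2))) = J(2 * ((a' : ℤ) * s 2) | q) :=
    sgn_of hq (by rw [ea]; ring) nac
  have hdv : ∀ x : ℤ, (q : ℤ) ∣ x → dv q x = true := by
    intro x hx
    unfold dv
    rw [decide_eq_true_iff]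
    exact hx
  refine ⟨hdv _ ?_, hdv _ ?_, hdv _ ?_, hdv _ ?_, ?_, ?_, ?_⟩
  · exact ⟨-((D : ℤ) * a'), by rw [ea]; ring⟩
  · exact ⟨(D : ℤ) * a', by rw [ea]; ring⟩
  · exact ⟨(a' : ℤ) * s 1, by rw [ea]; ring⟩
  · exact ⟨2 * ((a' : ℤ) * s 2), by rw [ea]; ring⟩
  · apply sg_inj
    rw [sg_xor, t1, t2, ← jacobiSym.mul_left, sg_sg0 hq n1]
    have : -((D : ℤ) * a') * (D * a') = (-1) * ((D : ℤ) * a') ^ 2 := by ring
    rw [this, J_sq hq nDa]
  · apply sg_inj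
    rw [sg_xor, t1, t3, ← jacobiSym.mul_left, sg_sg0 hq nDb]
    have : -((D : ℤ) * a') * (a' * s 1) = (-((D : ℤ) * s 1)) * (a' : ℤ) ^ 2 := by ring
    rw [this, J_sq hq hai]
  · apply sg_inj
    rw [sg_xor, t4, t2, ← jacobiSym.mul_left, sg_sg0 hq nDb]
    have : 2 * ((a' : ℤ) * s 2) * (D * a') = (2 * (D * s 2)) * (a' : ℤ) ^ 2 := by ring
    rw [this, J_sq hq hai, ← J_sq hq h4i]
    apply J_congr
    refine ⟨(D : ℤ) * a', ?_⟩
    have hd := h.dif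
    rw [ea] at hd
    linear_combination (-(D : ℤ)) * hd

/-- the local data at a prime of the second class -/
lemma locB {q : ℕ} (hq : q.Prime) (hqb : q ∣ s 1) :
    dv q (-((D : ℤ) * s 0)) = false ∧ dv q ((D : ℤ) * s 0) = false ∧
    dv q ((s 0 : ℤ) * s 1) = true ∧ dv q (2 * ((s 0 : ℤ) * s 2)) = false ∧
    sgn q (-((D : ℤ) * s 0)) = sg0 q (-((D : ℤ) * s 0)) ∧
    sgn q (2 * ((s 0 : ℤ) * s 2)) = false := by
  have hqi := Nat.prime_iff_prime_int.1 hq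
  have hqD : ¬ q ∣ D := h.hD hq hqb
  have hq2 : q ≠ 2 := h.ne2 hqb
  have h1 : ¬ q ∣ s 0 := cop_nd hq h.cop01.symm hqb
  have h2 : ¬ q ∣ s 2 := cop_nd hq h.cop012 (hqb.mul_left _)
  have hai : ¬ (q : ℤ) ∣ (s 0 : ℤ) := by rwa [Int.natCast_dvd_natCast]
  have hci : ¬ (q : ℤ) ∣ (s 2 : ℤ) := by rwa [Int.natCast_dvd_natCast]
  have hDi : ¬ (q : ℤ) ∣ (D : ℤ) := by rwa [Int.natCast_dvd_natCast]
  have h2i : ¬ (q : ℤ) ∣ (2 : ℤ) := by
    intro hh
    have : q ∣ 2 := by exact_mod_cast hh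
    exact hq2 ((Nat.prime_dvd_prime_iff_eq hq Nat.prime_two).1 this)
  have h4i : ¬ (q : ℤ) ∣ (4 : ℤ) := by
    intro hh
    have h4 : (4 : ℤ) = 2 * 2 := by norm_num
    rw [h4] at hh
    exact (hqi.dvd_or_dvd hh).elim h2i h2i
  have nDa : ¬ (q : ℤ) ∣ (D : ℤ) * s 0 := fun hh => (hqi.dvd_or_dvd hh).elim hDi hai
  have nDa' : ¬ (q : ℤ) ∣ -((D : ℤ) * s 0) := by rwa [dvd_neg]
  have nac : ¬ (q : ℤ) ∣ 2 * ((s 0 : ℤ) * s 2) := fun hh =>
    (hqi.dvd_or_dvd hh).elim h2i (fun hh => (hqi.dvd_or_dvd hh).elim hai hci)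
  obtain ⟨b', hb'⟩ := hqb
  have eb : (s 1 : ℤ) = q * b' := by rw [hb']; push_cast; ring
  have hdf : ∀ x : ℤ, ¬ (q : ℤ) ∣ x → dv q x = false := by
    intro x hx
    unfold dv
    rw [decide_eq_false_iff_not]
    exact hx
  refine ⟨hdf _ nDa', hdf _ nDa, ?_, hdf _ nac, sgn_ndvd hq nDa', ?_⟩
  · unfold dv
    rw [decide_eq_true_iff]
    exact ⟨(s 0 : ℤ) * b', by rw [eb]; ring⟩
  · apply sg_inj
    rw [sgn_nd hq nac, ← J_sq hq h4i]
    have e1 : J(2 * ((s 0 : ℤ) * s 2) * 4 ^ 2 | q) = J(1 * (s 0 : ℤ) ^ 2 | q) := by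
      apply J_congr
      refine ⟨-((s 0 : ℤ) * b'), ?_⟩
      have hd := h.dif
      rw [eb] at hd
      linear_combination (-(s 0 : ℤ)) * hd
    rw [e1, J_sq hq hai, jacobiSym.one_left]
    rfl

/-- the local data at a prime of the third class -/
lemma locC {q : ℕ} (hq : q.Prime) (hqc : q ∣ s 2) :
    dv q (-((D : ℤ) * s 0)) = false ∧ dv q ((D : ℤ) * s 0) = false ∧
    dv q ((s 0 : ℤ) * s 1) = false ∧ dv q (2 * ((s 0 : ℤ) * s 2)) = true ∧
    sgn q ((D : ℤ) * s 0) = sg0 q ((D : ℤ) * s 0) ∧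
    sgn q ((s 0 : ℤ) * s 1) = false := by
  have hqi := Nat.prime_iff_prime_int.1 hq
  have hqD : ¬ q ∣ D := h.hD hq hqc
  have h1 : ¬ q ∣ s 0 := fun h' => cop_nd hq h.cop012.symm hqc (h'.mul_right _)
  have h2 : ¬ q ∣ s 1 := fun h' => cop_nd hq h.cop012.symm hqc (h'.mul_left _)
  have hai : ¬ (q : ℤ) ∣ (s 0 : ℤ) := by rwa [Int.natCast_dvd_natCast]
  have hbi : ¬ (q : ℤ) ∣ (s 1 : ℤ) := by rwa [Int.natCast_dvd_natCast]
  have hDi : ¬ (q : ℤ) ∣ (D : ℤ) := by rwa [Int.natCast_dvd_natCast]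
  have nDa : ¬ (q : ℤ) ∣ (D : ℤ) * s 0 := fun hh => (hqi.dvd_or_dvd hh).elim hDi hai
  have nDa' : ¬ (q : ℤ) ∣ -((D : ℤ) * s 0) := by rwa [dvd_neg]
  have nab : ¬ (q : ℤ) ∣ (s 0 : ℤ) * s 1 := fun hh => (hqi.dvd_or_dvd hh).elim hai hbi
  obtain ⟨c', hc'⟩ := hqc
  have ec : (s 2 : ℤ) = q * c' := by rw [hc']; push_cast; ring
  have hdf : ∀ x : ℤ, ¬ (q : ℤ) ∣ x → dv q x = false := by
    intro x hx
    unfold dv
    rw [decide_eq_false_iff_not]
    exact hx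
  refine ⟨hdf _ nDa', hdf _ nDa, hdf _ nab, ?_, sgn_ndvd hq nDa, ?_⟩
  · unfold dv
    rw [decide_eq_true_iff]
    exact ⟨2 * ((s 0 : ℤ) * c'), by rw [ec]; ring⟩
  · apply sg_inj
    rw [sgn_nd hq nab]
    have e1 : J((s 0 : ℤ) * s 1 | q) = J(1 * (s 0 : ℤ) ^ 2 | q) := by
      apply J_congr
      refine ⟨-(32 * (s 0 : ℤ) * c'), ?_⟩
      have hd := h.dif
      rw [ec] at hd
      linear_combination (-(s 0 : ℤ)) * hd
    rw [e1, J_sq hq hai, jacobiSym.one_left]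
    rfl

end

/-- the local data at `17` -/
lemma loc17 {s : Fin 3 → ℕ} (hd : (s 0 : ℤ) - s 1 = 32 * s 2) (h0 : s 0 % 17 = 1)
    (h1 : s 1 % 17 = 15) :
    dv 17 (-(((17 : ℕ) : ℤ) * s 0)) = true ∧ dv 17 (((17 : ℕ) : ℤ) * s 0) = true ∧
    dv 17 ((s 0 : ℤ) * s 1) = false ∧ dv 17 (2 * ((s 0 : ℤ) * s 2)) = false ∧
    sgn 17 (-(((17 : ℕ) : ℤ) * s 0)) = false ∧ sgn 17 (((17 : ℕ) : ℤ) * s 0) = false ∧
    sgn 17 ((s 0 : ℤ) * s 1) = false ∧ sgn 17 (2 * ((s 0 : ℤ) * s 2)) = true ∧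
    sg0 17 (-1) = false := by
  have hq : Nat.Prime 17 := by norm_num
  obtain ⟨a, ha⟩ : ∃ a : ℤ, a = s 0 := ⟨_, rfl⟩
  obtain ⟨b, hb⟩ : ∃ b : ℤ, b = s 1 := ⟨_, rfl⟩
  obtain ⟨c, hc⟩ : ∃ c : ℤ, c = s 2 := ⟨_, rfl⟩
  rw [← ha, ← hb, ← hc] at hd
  rw [← ha, ← hb, ← hc]
  have ha1 : a % 17 = 1 := by rw [ha]; omega
  have hb1 : b % 17 = 15 := by rw [hb]; omega
  have hc1 : c % 17 = 7 := by omega
  obtain ⟨a', ha'⟩ : ∃ a' : ℤ, a = 17 * a' + 1 := ⟨a / 17, by omega⟩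
  obtain ⟨b', hb'⟩ : ∃ b' : ℤ, b = 17 * b' + 15 := ⟨b / 17, by omega⟩
  obtain ⟨c', hc'⟩ : ∃ c' : ℤ, c = 17 * c' + 7 := ⟨c / 17, by omega⟩
  have e17 : ((17 : ℕ) : ℤ) = 17 := rfl
  have na : ¬ ((17 : ℕ) : ℤ) ∣ a := by rw [e17]; omega
  have na' : ¬ ((17 : ℕ) : ℤ) ∣ -a := by rw [e17]; omega
  have eab : a * b = 17 * (17 * a' * b' + 15 * a' + b') + 15 := by rw [ha', hb']; ring
  have nab : ¬ ((17 : ℕ) : ℤ) ∣ a * b := by rw [e17, eab]; omega
  have eac : 2 * (a * c) = 17 * (34 * a' * c' + 14 * a' + 2 * c') + 14 := by rw [ha', hc']; ring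
  have nac : ¬ ((17 : ℕ) : ℤ) ∣ 2 * (a * c) := by rw [e17, eac]; omega
  have hdt : ∀ x : ℤ, ((17 : ℕ) : ℤ) ∣ x → dv 17 x = true := by
    intro x hx
    unfold dv
    rw [decide_eq_true_iff]
    exact hx
  have hdf : ∀ x : ℤ, ¬ ((17 : ℕ) : ℤ) ∣ x → dv 17 x = false := by
    intro x hx
    unfold dv
    rw [decide_eq_false_iff_not]
    exact hx
  refine ⟨hdt _ ⟨-a, by ring⟩, hdt _ ⟨a, rfl⟩, hdf _ nab, hdf _ nac, ?_, ?_, ?_, ?_, ?_⟩
  · apply sg_inj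
    rw [sgn_of hq (y := -a) (by ring) na']
    have : J(-a | 17) = J(-1 | 17) := J_congr ⟨-a', by rw [ha']; push_cast; ring⟩
    rw [this]
    show _ = (1 : ℤ)
    norm_num
  · apply sg_inj
    rw [sgn_of hq (y := a) (by ring) na]
    have : J(a | 17) = J(1 | 17) := J_congr ⟨a', by rw [ha']; push_cast; ring⟩
    rw [this]
    show _ = (1 : ℤ)
    norm_num
  · apply sg_inj
    rw [sgn_nd hq nab]
    have : J(a * b | 17) = J(15 | 17) :=
      J_congr ⟨17 * a' * b' + 15 * a' + b', by rw [eab]; push_cast; ring⟩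
    rw [this]
    show _ = (1 : ℤ)
    norm_num
  · apply sg_inj
    rw [sgn_nd hq nac]
    have : J(2 * (a * c) | 17) = J(14 | 17) :=
      J_congr ⟨34 * a' * c' + 14 * a' + 2 * c', by rw [eac]; push_cast; ring⟩
    rw [this]
    show _ = (-1 : ℤ)
    norm_num
  · unfold sg0
    rw [decide_eq_false_iff_not]
    norm_num

end Pool.Agent.Y232.MT
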