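import Pool.Agent.Y667.MT.Stm
import Pool.Agent.Y232.MT.Surv0

/-!
# Project MT: reciprocity at the three large primes
-/

set_option autoImplicit false

namespace Pool.Agent.Y232.MT

open Finset Pool.Agent.W262.RK Pool.Agent.W307.RT Pool.Agent.W307.RS Pool.Agent.W307.SE
  Pool.Agent.W307.FK Pool.Agent.Y667.RP Pool.Agent.Y667.RZ Pool.Agent.Y535.RZ Pool.Agent.Y667.MT

open NumberTheorySymbols

lemma single {M : Finset ℕ} {f : ℕ → Bool} {k : ℕ} (hk : k ∈ M)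
    (h : ∀ q ∈ M, q ≠ k → f q = false) (hp : ∏ q ∈ M, sg (f q) = 1) : f k = false := by
  rw [Finset.prod_eq_single k] at hp
  · exact sg_one hp
  · intro q hq hqk
    rw [h q hq hqk]
    rfl
  · intro hk'
    exact absurd hk hk'

section

variable {s s' : Fin 3 → ℕ} {m n l : ℕ} (F : Full s s' m n l)
include F

lemma prod_eq : ∏ j, s' j = (∏ j, s j) * (m * n * l) := by
  rw [Fin.prod_univ_three, Fin.prod_univ_three, F.e0, F.e1, F.e2]
  ring

lemma dvd0 {q : ℕ} (hq : q.Prime) (h : q ∣ s' 0) : q ∣ s 0 ∨ q = m := by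
  rw [F.e0, hq.dvd_mul] at h
  exact h.imp id (fun h => (Nat.prime_dvd_prime_iff_eq hq F.pm).1 h)

lemma dvd1 {q : ℕ} (hq : q.Prime) (h : q ∣ s' 1) : q ∣ s 1 ∨ q = n := by
  rw [F.e1, hq.dvd_mul] at h
  exact h.imp id (fun h => (Nat.prime_dvd_prime_iff_eq hq F.pn).1 h)

lemma dvd2 {q : ℕ} (hq : q.Prime) (h : q ∣ s' 2) : q ∣ s 2 ∨ q = l := by
  rw [F.e2, hq.dvd_mul] at h
  exact h.imp id (fun h => (Nat.prime_dvd_prime_iff_eq hq F.pl).1 h)

lemma m_dvd : m ∣ s' 0 := by rw [F.e0]; exact dvd_mul_left _ _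

lemma n_dvd : n ∣ s' 1 := by rw [F.e1]; exact dvd_mul_left _ _

lemma l_dvd : l ∣ s' 2 := by rw [F.e2]; exact dvd_mul_left _ _

lemma m_nd : ¬ m ∣ ∏ j, s j := by
  intro h
  have h1 : m * m ∣ ∏ j, s' j := by
    rw [prod_eq F]
    exact Nat.mul_dvd_mul h ⟨n * l, by ring⟩
  exact F.pm.one_lt.ne' (Nat.isUnit_iff.1 (F.sqf m h1))

lemma n_nd : ¬ n ∣ ∏ j, s j := by
  intro h
  have h1 : n * n ∣ ∏ j, s' j := by
    rw [prod_eq F]
    exact Nat.mul_dvd_mul h ⟨m * l, by ring⟩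
  exact F.pn.one_lt.ne' (Nat.isUnit_iff.1 (F.sqf n h1))

lemma l_nd : ¬ l ∣ ∏ j, s j := by
  intro h
  have h1 : l * l ∣ ∏ j, s' j := by
    rw [prod_eq F]
    exact Nat.mul_dvd_mul h ⟨m * n, by ring⟩
  exact F.pl.one_lt.ne' (Nat.isUnit_iff.1 (F.sqf l h1))

lemma s_sqf : Squarefree (∏ j, s j) :=
  F.sqf.squarefree_of_dvd ⟨m * n * l, prod_eq F⟩

lemma nd17 : ¬ 17 ∣ ∏ j, s' j := by
  intro h
  have := F.gt 17 (by norm_num) h
  omega

lemma dat {D : ℕ} (hD : D = 1 ∨ D = 17) : Dat s' D := by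
  refine ⟨F.sqf, F.odd, ?_, F.eq, ?_⟩
  · rcases hD with rfl | rfl
    · exact Nat.coprime_one_right _
    · exact ((Nat.Prime.coprime_iff_not_dvd (by norm_num)).2 (nd17 F)).symm
  · rcases hD with rfl | rfl <;> norm_num

/-- **Reciprocity at the three large primes**, for the curve (`D = 1`) and the twist (`D = 17`). -/
theorem core {D : ℕ} (hD : D = 1 ∨ D = 17) {c t : ℤ} (c1 : Squarefree c) (t1 : Squarefree t)
    (c2 : 0 < c) (c3 : c % 8 = 1)
    (cs : ∀ q : ℕ, q.Prime → (q : ℤ) ∣ c → q ∣ D * ∏ j, s j)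
    (ts : ∀ q : ℕ, q.Prime → (q : ℤ) ∣ t → q ∣ 2 * (D * ∏ j, s j))
    (L0 : ∀ q : ℕ, q.Prime → q ∣ s 0 →
      LR 0 (sg0 q (-((D : ℤ) * s' 1))) (dv q c) (dv q t) (sgn q c) (sgn q t))
    (L1 : ∀ q : ℕ, q.Prime → q ∣ s 1 →
      LR 1 (sg0 q (-((D : ℤ) * s' 0))) (dv q c) (dv q t) (sgn q c) (sgn q t))
    (L2 : ∀ q : ℕ, q.Prime → q ∣ s 2 →
      LR 2 (sg0 q ((D : ℤ) * s' 0)) (dv q c) (dv q t) (sgn q c) (sgn q t))
    (L3 : D = 17 → sgn 17 c = false ∧ sgn 17 t = dv 17 c) :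
    xor (sgn m c) (sgn m t) = false ∧ sgn n t = false ∧ sgn l c = false := by
  have h := dat F hD
  have hS0 : ∏ j, s' j ≠ 0 := F.sqf.ne_zero
  have hD0 : D ≠ 0 := h.D0.ne'
  have hDodd : Odd D := by rcases hD with rfl | rfl <;> decide
  have hD8 : D % 8 = 1 := by rcases hD with rfl | rfl <;> norm_num
  have hDsq : Squarefree D := by
    rcases hD with rfl | rfl
    · exact squarefree_one
    · exact (by norm_num : Nat.Prime 17).squarefree
  obtain ⟨M, hM⟩ : ∃ M, M = (D * ∏ j, s' j).primeFactors := ⟨_, rfl⟩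
  have hMp : ∀ q ∈ M, q.Prime ∧ q ≠ 2 := by
    intro q hq
    rw [hM] at hq
    refine ⟨Nat.prime_of_mem_primeFactors hq, ?_⟩
    rintro rfl
    exact (Nat.not_even_iff_odd.2 (hDodd.mul F.odd))
      (even_iff_two_dvd.2 (Nat.dvd_of_mem_primeFactors hq))
  have hMmem : ∀ q : ℕ, q.Prime → q ∣ D * ∏ j, s' j → q ∈ M := by
    intro q hq hqd
    rw [hM]
    exact Nat.mem_primeFactors.2 ⟨hq, hqd, mul_ne_zero hD0 hS0⟩
  have hSS : (∏ j, s j) ∣ ∏ j, s' j := ⟨m * n * l, prod_eq F⟩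
  have hcM : ∀ q : ℕ, q.Prime → q ≠ 2 → (q : ℤ) ∣ c → q ∈ M := fun q hq _ hqc =>
    hMmem q hq ((cs q hq hqc).trans (Nat.mul_dvd_mul_left _ hSS))
  have htM : ∀ q : ℕ, q.Prime → q ≠ 2 → (q : ℤ) ∣ t → q ∈ M := by
    intro q hq hq2 hqt
    have h1 := ts q hq hqt
    rcases (hq.dvd_mul).1 h1 with h1 | h1
    · exact absurd ((Nat.prime_dvd_prime_iff_eq hq Nat.prime_two).1 h1) hq2
    · exact hMmem q hq (h1.trans (Nat.mul_dvd_mul_left _ hSS))
  -- the auxiliary classes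
  have pos0 : (0 : ℤ) < s' 0 := by exact_mod_cast h.pos 0
  have pos1 : (0 : ℤ) < s' 1 := by exact_mod_cast h.pos 1
  have pos2 : (0 : ℤ) < s' 2 := by exact_mod_cast h.pos 2
  have posD : (0 : ℤ) < D := by exact_mod_cast h.D0
  have hDs0 : D.Coprime (s' 0) := (h.co.coprime_dvd_left (h.sj_dvd 0)).symm
  have sA : Squarefree (D * s' 0) := (Nat.squarefree_mul hDs0).2 ⟨hDsq, h.sqj 0⟩
  have sAi : Squarefree ((D : ℤ) * s' 0) := by
    have := Int.squarefree_natCast.2 sA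
    push_cast at this
    exact this
  have sAn : Squarefree (-((D : ℤ) * s' 0)) := by
    intro x hx
    exact sAi x (by rwa [dvd_neg] at hx)
  have A8 : ((D : ℤ) * s' 0) % 8 = 1 := by
    have h1 : (D * s' 0) % 8 = 1 := by rw [Nat.mul_mod, hD8, F.a8]
    have : ((D * s' 0 : ℕ) : ℤ) % 8 = 1 := by omega
    rw [← this]
    push_cast
    rfl
  have sAB : Squarefree (s' 0 * s' 1) := (Nat.squarefree_mul h.cop01).2 ⟨h.sqj 0, h.sqj 1⟩
  have sABi : Squarefree ((s' 0 : ℤ) * s' 1) := by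
    have := Int.squarefree_natCast.2 sAB
    push_cast at this
    exact this
  have AB8 : ((s' 0 : ℤ) * s' 1) % 8 = 1 := by
    have h1 : (s' 0 * s' 1) % 8 = 1 := by rw [Nat.mul_mod, F.a8, F.b8]
    have : ((s' 0 * s' 1 : ℕ) : ℤ) % 8 = 1 := by omega
    rw [← this]
    push_cast
    rfl
  have cop02 : (s' 0).Coprime (s' 2) := h.cop012.coprime_dvd_left (dvd_mul_right _ _)
  have hodd02 : Odd (s' 0 * s' 2) := by
    have h1 := F.odd
    rw [Fin.prod_univ_three, Nat.odd_mul, Nat.odd_mul] at h1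
    exact h1.1.1.mul h1.2
  have sAC : Squarefree (2 * (s' 0 * s' 2)) := by
    refine (Nat.squarefree_mul (Nat.coprime_two_left.2 hodd02)).2 ⟨Nat.prime_two.squarefree, ?_⟩
    exact (Nat.squarefree_mul cop02).2 ⟨h.sqj 0, h.sqj 2⟩
  have sACi : Squarefree (2 * ((s' 0 : ℤ) * s' 2)) := by
    have := Int.squarefree_natCast.2 sAC
    push_cast at this
    exact this
  have supA : ∀ q : ℕ, q.Prime → (q : ℤ) ∣ (D : ℤ) * s' 0 → q ∈ M := by
    intro q hq hqA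
    have h1 : q ∣ D * s' 0 := by exact_mod_cast hqA
    exact hMmem q hq (h1.trans (Nat.mul_dvd_mul_left _ (h.sj_dvd 0)))
  have supAB : ∀ q : ℕ, q.Prime → (q : ℤ) ∣ (s' 0 : ℤ) * s' 1 → q ∈ M := by
    intro q hq hqA
    have h1 : q ∣ s' 0 * s' 1 := by exact_mod_cast hqA
    refine hMmem q hq ((h1.trans ?_).mul_left _)
    rw [Fin.prod_univ_three]
    exact dvd_mul_right _ _
  have supAC : ∀ q : ℕ, q.Prime → q ≠ 2 → (q : ℤ) ∣ 2 * ((s' 0 : ℤ) * s' 2) → q ∈ M := by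
    intro q hq hq2 hqA
    have h1 : q ∣ 2 * (s' 0 * s' 2) := by exact_mod_cast hqA
    rcases (hq.dvd_mul).1 h1 with h1 | h1
    · exact absurd ((Nat.prime_dvd_prime_iff_eq hq Nat.prime_two).1 h1) hq2
    · refine hMmem q hq ((h1.trans ?_).mul_left _)
      rw [Fin.prod_univ_three]
      exact ⟨s' 1, by ring⟩
  -- the product formulas
  have P1 := prodf c1 c2 c3 t1 M hMp (fun q hq hq2 hh => hh.elim (hcM q hq hq2) (htM q hq hq2))
  have P2 := prodf c1 c2 c3 sAn M hMp (fun q hq hq2 hh => hh.elim (hcM q hq hq2)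
    (fun hh => supA q hq (by rwa [dvd_neg] at hh)))
  have P3 := prodf sAi (mul_pos posD pos0) A8 t1 M hMp (fun q hq hq2 hh => hh.elim (supA q hq)
    (htM q hq hq2))
  have P4 := prodf sABi (mul_pos pos0 pos1) AB8 t1 M hMp (fun q hq hq2 hh =>
    hh.elim (supAB q hq) (htM q hq hq2))
  have P5 := prodf c1 c2 c3 sACi M hMp (fun q hq hq2 hh => hh.elim (hcM q hq hq2)
    (supAC q hq hq2))
  have PQ : ∏ q ∈ M, sg (xor (hsb q c t) (xor (hsb q c (-((D : ℤ) * s' 0)))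
      (hsb q ((D : ℤ) * s' 0) t))) = 1 := by
    simp only [sg_xor, prod_mul_distrib]
    rw [P1, P2, P3]
    norm_num
  have PR : ∏ q ∈ M, sg (xor (hsb q c (-((D : ℤ) * s' 0))) (hsb q ((s' 0 : ℤ) * s' 1) t)) = 1 := by
    simp only [sg_xor, prod_mul_distrib]
    rw [P2, P4]
    norm_num
  have PP : ∏ q ∈ M, sg (xor (hsb q c (2 * ((s' 0 : ℤ) * s' 2))) (hsb q ((D : ℤ) * s' 0) t)) = 1 := by
    simp only [sg_xor, prod_mul_distrib]
    rw [P5, P3]
    norm_num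
  -- the classes are units at the three primes
  have hm17 : m ≠ 17 := fun hh => nd17 F (hh ▸ (m_dvd F).trans (h.sj_dvd 0))
  have hn17 : n ≠ 17 := fun hh => nd17 F (hh ▸ (n_dvd F).trans (h.sj_dvd 1))
  have hl17 : l ≠ 17 := fun hh => nd17 F (hh ▸ (l_dvd F).trans (h.sj_dvd 2))
  have unr : ∀ q : ℕ, q.Prime → q ≠ 2 → q ≠ 17 → ¬ q ∣ ∏ j, s j →
      dv q c = false ∧ dv q t = false := by
    intro q hq hq2 hq17 hqs
    have hqD : ¬ q ∣ D := by
      intro hh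
      rcases hD with rfl | rfl
      · exact hq.one_lt.ne' (Nat.dvd_one.1 hh)
      · exact hq17 ((Nat.prime_dvd_prime_iff_eq hq (by norm_num)).1 hh)
    have hqDS : ¬ q ∣ D * ∏ j, s j := fun hh => ((hq.dvd_mul).1 hh).elim hqD hqs
    unfold dv
    rw [decide_eq_false_iff_not, decide_eq_false_iff_not]
    refine ⟨fun hh => hqDS (cs q hq hh), fun hh => ?_⟩
    rcases (hq.dvd_mul).1 (ts q hq hh) with h1 | h1
    · exact hq2 ((Nat.prime_dvd_prime_iff_eq hq Nat.prime_two).1 h1)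
    · exact hqDS h1
  obtain ⟨um1, um2⟩ := unr m F.pm (h.ne2 (m_dvd F)) hm17 (m_nd F)
  obtain ⟨un1, un2⟩ := unr n F.pn (h.ne2 (n_dvd F)) hn17 (n_nd F)
  obtain ⟨ul1, ul2⟩ := unr l F.pl (h.ne2 (l_dvd F)) hl17 (l_nd F)
  -- local computations
  have CA : ∀ q : ℕ, q.Prime → q ∣ s 0 → xor (hsb q c t) (xor (hsb q c (-((D : ℤ) * s' 0)))
      (hsb q ((D : ℤ) * s' 0) t)) = false ∧
      xor (hsb q c (-((D : ℤ) * s' 0))) (hsb q ((s' 0 : ℤ) * s' 1) t) = false ∧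
      xor (hsb q c (2 * ((s' 0 : ℤ) * s' 2))) (hsb q ((D : ℤ) * s' 0) t) = false := by
    intro q hq hqs
    obtain ⟨a1, a2, a3, a4, a5, a6, a7⟩ := locA h hq (by rw [F.e0]; exact hqs.mul_right _)
    have hL := L0 q hq hqs
    unfold LR at hL
    rw [if_pos rfl] at hL
    obtain ⟨hL1, hL2⟩ := hL
    simp only [hsb_eq]
    rw [a1, a2, a3, a4, ← hL1]
    exact bA _ _ _ _ _ _ _ _ _ a5 a6 a7 hL2
  have CM : xor (hsb m c t) (xor (hsb m c (-((D : ℤ) * s' 0)))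
      (hsb m ((D : ℤ) * s' 0) t)) = xor (sgn m c) (sgn m t) ∧
      xor (hsb m c (-((D : ℤ) * s' 0))) (hsb m ((s' 0 : ℤ) * s' 1) t) =
        xor (sgn m c) (sgn m t) ∧
      xor (hsb m c (2 * ((s' 0 : ℤ) * s' 2))) (hsb m ((D : ℤ) * s' 0) t) =
        xor (sgn m c) (sgn m t) := by
    obtain ⟨a1, a2, a3, a4, -, -, -⟩ := locA h F.pm (m_dvd F)
    simp only [hsb_eq]
    rw [a1, a2, a3, a4, um1, um2]
    exact bM _ _ _ _ _ _ _
  have CB : ∀ q : ℕ, q.Prime → q ∣ s 1 → xor (hsb q c t) (xor (hsb q c (-((D : ℤ) * s' 0)))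
      (hsb q ((D : ℤ) * s' 0) t)) = false ∧
      xor (hsb q c (-((D : ℤ) * s' 0))) (hsb q ((s' 0 : ℤ) * s' 1) t) = false ∧
      xor (hsb q c (2 * ((s' 0 : ℤ) * s' 2))) (hsb q ((D : ℤ) * s' 0) t) = false := by
    intro q hq hqs
    obtain ⟨a1, a2, a3, a4, a5, a6⟩ := locB h hq (by rw [F.e1]; exact hqs.mul_right _)
    have hL := L1 q hq hqs
    unfold LR at hL
    rw [if_neg (by decide), if_pos rfl] at hL
    obtain ⟨hL1, hL2⟩ := hL
    simp only [hsb_eq]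
    rw [a1, a2, a3, a4, a5, a6, hL1]
    exact bB _ _ _ _ _ _ _ hL2
  have CN : xor (hsb n c t) (xor (hsb n c (-((D : ℤ) * s' 0)))
      (hsb n ((D : ℤ) * s' 0) t)) = false ∧
      xor (hsb n c (-((D : ℤ) * s' 0))) (hsb n ((s' 0 : ℤ) * s' 1) t) = sgn n t ∧
      xor (hsb n c (2 * ((s' 0 : ℤ) * s' 2))) (hsb n ((D : ℤ) * s' 0) t) = false := by
    obtain ⟨a1, a2, a3, a4, -, -⟩ := locB h F.pn (n_dvd F)
    simp only [hsb_eq]
    rw [a1, a2, a3, a4, un1, un2]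
    exact bN _ _ _ _ _ _ _
  have CC : ∀ q : ℕ, q.Prime → q ∣ s 2 → xor (hsb q c t) (xor (hsb q c (-((D : ℤ) * s' 0)))
      (hsb q ((D : ℤ) * s' 0) t)) = false ∧
      xor (hsb q c (-((D : ℤ) * s' 0))) (hsb q ((s' 0 : ℤ) * s' 1) t) = false ∧
      xor (hsb q c (2 * ((s' 0 : ℤ) * s' 2))) (hsb q ((D : ℤ) * s' 0) t) = false := by
    intro q hq hqs
    obtain ⟨a1, a2, a3, a4, a5, a6⟩ := locC h hq (by rw [F.e2]; exact hqs.mul_right _)
    have hL := L2 q hq hqs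
    unfold LR at hL
    rw [if_neg (by decide), if_neg (by decide)] at hL
    obtain ⟨hL1, hL2⟩ := hL
    simp only [hsb_eq]
    rw [a1, a2, a3, a4, a5, a6, hL1]
    exact bC _ _ _ _ _ _ _ hL2
  have CL : xor (hsb l c t) (xor (hsb l c (-((D : ℤ) * s' 0)))
      (hsb l ((D : ℤ) * s' 0) t)) = false ∧
      xor (hsb l c (-((D : ℤ) * s' 0))) (hsb l ((s' 0 : ℤ) * s' 1) t) = false ∧
      xor (hsb l c (2 * ((s' 0 : ℤ) * s' 2))) (hsb l ((D : ℤ) * s' 0) t) = sgn l c := by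
    obtain ⟨a1, a2, a3, a4, -, -⟩ := locC h F.pl (l_dvd F)
    simp only [hsb_eq]
    rw [a1, a2, a3, a4, ul1, ul2]
    exact bL _ _ _ _ _ _ _
  have C17 : D = 17 → xor (hsb 17 c t) (xor (hsb 17 c (-((D : ℤ) * s' 0)))
      (hsb 17 ((D : ℤ) * s' 0) t)) = false ∧
      xor (hsb 17 c (-((D : ℤ) * s' 0))) (hsb 17 ((s' 0 : ℤ) * s' 1) t) = false ∧
      xor (hsb 17 c (2 * ((s' 0 : ℤ) * s' 2))) (hsb 17 ((D : ℤ) * s' 0) t) = false := by
    intro hD17
    obtain ⟨k1, k2⟩ := L3 hD17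
    rw [hD17]
    obtain ⟨a1, a2, a3, a4, a5, a6, a7, a8, a9⟩ := loc17 F.eq F.a17 F.b17
    simp only [hsb_eq]
    rw [a1, a2, a3, a4, a5, a6, a7, a8, a9, k1, k2]
    exact b17 _ _
  -- the cases
  have cases : ∀ q ∈ M, (D = 17 ∧ q = 17) ∨ q ∣ s 0 ∨ q ∣ s 1 ∨ q ∣ s 2 ∨ q = m ∨ q = n ∨
      q = l := by
    intro q hq
    have hqp := (hMp q hq).1
    rw [hM] at hq
    rcases (hqp.dvd_mul).1 (Nat.dvd_of_mem_primeFactors hq) with h1 | h1
    · left
      rcases hD with rfl | rfl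
      · exact absurd (Nat.dvd_one.1 h1) hqp.one_lt.ne'
      · exact ⟨rfl, (Nat.prime_dvd_prime_iff_eq hqp (by norm_num)).1 h1⟩
    · right
      rw [Fin.prod_univ_three, hqp.dvd_mul, hqp.dvd_mul] at h1
      rcases h1 with (h1 | h1) | h1
      · rcases dvd0 F hqp h1 with h2 | h2
        · exact Or.inl h2
        · exact Or.inr (Or.inr (Or.inr (Or.inl h2)))
      · rcases dvd1 F hqp h1 with h2 | h2
        · exact Or.inr (Or.inl h2)
        · exact Or.inr (Or.inr (Or.inr (Or.inr (Or.inl h2))))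
      · rcases dvd2 F hqp h1 with h2 | h2
        · exact Or.inr (Or.inr (Or.inl h2))
        · exact Or.inr (Or.inr (Or.inr (Or.inr (Or.inr h2))))
  have memm : m ∈ M := hMmem m F.pm (((m_dvd F).trans (h.sj_dvd 0)).mul_left _)
  have memn : n ∈ M := hMmem n F.pn (((n_dvd F).trans (h.sj_dvd 1)).mul_left _)
  have meml : l ∈ M := hMmem l F.pl (((l_dvd F).trans (h.sj_dvd 2)).mul_left _)
  have R1 : xor (sgn m c) (sgn m t) = false := by
    rw [← CM.1]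
    refine single memm ?_ PQ
    intro q hq hqm
    have hqp := (hMp q hq).1
    rcases cases q hq with ⟨h1, rfl⟩ | h1 | h1 | h1 | h1 | h1 | h1
    · exact (C17 h1).1
    · exact (CA q hqp h1).1
    · exact (CB q hqp h1).1
    · exact (CC q hqp h1).1
    · exact absurd h1 hqm
    · rw [h1]; exact CN.1
    · rw [h1]; exact CL.1
  refine ⟨R1, ?_, ?_⟩
  · rw [← CN.2.1]
    refine single memn ?_ PR
    intro q hq hqn
    have hqp := (hMp q hq).1
    rcases cases q hq with ⟨h1, rfl⟩ | h1 | h1 | h1 | h1 | h1 | h1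
    · exact (C17 h1).2.1
    · exact (CA q hqp h1).2.1
    · exact (CB q hqp h1).2.1
    · exact (CC q hqp h1).2.1
    · rw [h1]; exact CM.2.1.trans R1
    · exact absurd h1 hqn
    · rw [h1]; exact CL.2.1
  · rw [← CL.2.2]
    refine single meml ?_ PP
    intro q hq hql
    have hqp := (hMp q hq).1
    rcases cases q hq with ⟨h1, rfl⟩ | h1 | h1 | h1 | h1 | h1 | h1
    · exact (C17 h1).2.2
    · exact (CA q hqp h1).2.2
    · exact (CB q hqp h1).2.2
    · exact (CC q hqp h1).2.2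
    · rw [h1]; exact CM.2.2.trans R1
    · rw [h1]; exact CN.2.2
    · exact absurd h1 hql

/-- the local conditions at all primes of the new data -/
lemma finish {D : ℕ} (hD : D = 1 ∨ D = 17) {T T' : Finset ℕ}
    (hT : ∀ q : ℕ, q.Prime → q ∣ ∏ j, s j → (q ∈ T ↔ q ∈ T'))
    (hT' : ∀ q : ℕ, q.Prime → q ∣ ∏ j, s' j →
      (q ∣ s' 0 → (q ∈ T' ↔ J(-((D : ℤ) * s' 1) | q) = -1)) ∧
      (q ∣ s' 1 → (q ∈ T' ↔ J(-((D : ℤ) * s' 0) | q) = -1)) ∧
      (q ∣ s' 2 → (q ∈ T' ↔ J((D : ℤ) * s' 0 | q) = -1)))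
    {c t : ℤ} (c1 : Squarefree c) (t1 : Squarefree t) (c2 : 0 < c) (c3 : c % 8 = 1)
    (cs : ∀ q : ℕ, q.Prime → (q : ℤ) ∣ c → q ∣ D * ∏ j, s j)
    (ts : ∀ q : ℕ, q.Prime → (q : ℤ) ∣ t → q ∣ 2 * (D * ∏ j, s j))
    (loc : ∀ q : ℕ, q.Prime → q ∣ ∏ j, s j → LF s T q (dv q c) (dv q t) (sgn q c) (sgn q t))
    (L3 : D = 17 → sgn 17 c = false ∧ sgn 17 t = dv 17 c) :
    ∀ q : ℕ, q.Prime → q ∣ ∏ j, s' j → LF s' T' q (dv q c) (dv q t) (sgn q c) (sgn q t) := by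
  have h := dat F hD
  have sj : ∀ j, s j ∣ ∏ j, s j := fun j => Finset.dvd_prod_of_mem _ (Finset.mem_univ j)
  have hSS : (∏ j, s j) ∣ ∏ j, s' j := ⟨m * n * l, prod_eq F⟩
  have L0 : ∀ q : ℕ, q.Prime → q ∣ s 0 →
      LR 0 (sg0 q (-((D : ℤ) * s' 1))) (dv q c) (dv q t) (sgn q c) (sgn q t) := by
    intro q hq hqs
    have hqS := hqs.trans (sj 0)
    have e : sg0 q (-((D : ℤ) * s' 1)) = decide (q ∈ T) := by
      unfold sg0
      rw [decide_eq_decide, hT q hq hqS]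
      exact ((hT' q hq (hqS.trans hSS)).1 (by rw [F.e0]; exact hqs.mul_right _)).symm
    rw [e]
    exact loc q hq hqS 0 hqs
  have L1 : ∀ q : ℕ, q.Prime → q ∣ s 1 →
      LR 1 (sg0 q (-((D : ℤ) * s' 0))) (dv q c) (dv q t) (sgn q c) (sgn q t) := by
    intro q hq hqs
    have hqS := hqs.trans (sj 1)
    have e : sg0 q (-((D : ℤ) * s' 0)) = decide (q ∈ T) := by
      unfold sg0
      rw [decide_eq_decide, hT q hq hqS]
      exact ((hT' q hq (hqS.trans hSS)).2.1 (by rw [F.e1]; exact hqs.mul_right _)).symm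
    rw [e]
    exact loc q hq hqS 1 hqs
  have L2 : ∀ q : ℕ, q.Prime → q ∣ s 2 →
      LR 2 (sg0 q ((D : ℤ) * s' 0)) (dv q c) (dv q t) (sgn q c) (sgn q t) := by
    intro q hq hqs
    have hqS := hqs.trans (sj 2)
    have e : sg0 q ((D : ℤ) * s' 0) = decide (q ∈ T) := by
      unfold sg0
      rw [decide_eq_decide, hT q hq hqS]
      exact ((hT' q hq (hqS.trans hSS)).2.2 (by rw [F.e2]; exact hqs.mul_right _)).symm
    rw [e]
    exact loc q hq hqS 2 hqs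
  obtain ⟨r1, r2, r3⟩ := core F hD c1 t1 c2 c3 cs ts L0 L1 L2 L3
  have hm17 : m ≠ 17 := fun hh => nd17 F (hh ▸ (m_dvd F).trans (h.sj_dvd 0))
  have hn17 : n ≠ 17 := fun hh => nd17 F (hh ▸ (n_dvd F).trans (h.sj_dvd 1))
  have hl17 : l ≠ 17 := fun hh => nd17 F (hh ▸ (l_dvd F).trans (h.sj_dvd 2))
  have unr : ∀ q : ℕ, q.Prime → q ≠ 2 → q ≠ 17 → ¬ q ∣ ∏ j, s j →
      dv q c = false ∧ dv q t = false := by
    intro q hq hq2 hq17 hqs
    have hqD : ¬ q ∣ D := by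
      intro hh
      rcases hD with rfl | rfl
      · exact hq.one_lt.ne' (Nat.dvd_one.1 hh)
      · exact hq17 ((Nat.prime_dvd_prime_iff_eq hq (by norm_num)).1 hh)
    have hqDS : ¬ q ∣ D * ∏ j, s j := fun hh => ((hq.dvd_mul).1 hh).elim hqD hqs
    unfold dv
    rw [decide_eq_false_iff_not, decide_eq_false_iff_not]
    refine ⟨fun hh => hqDS (cs q hq hh), fun hh => ?_⟩
    rcases (hq.dvd_mul).1 (ts q hq hh) with h1 | h1
    · exact hq2 ((Nat.prime_dvd_prime_iff_eq hq Nat.prime_two).1 h1)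
    · exact hqDS h1
  obtain ⟨um1, um2⟩ := unr m F.pm (h.ne2 (m_dvd F)) hm17 (m_nd F)
  obtain ⟨un1, un2⟩ := unr n F.pn (h.ne2 (n_dvd F)) hn17 (n_nd F)
  obtain ⟨ul1, ul2⟩ := unr l F.pl (h.ne2 (l_dvd F)) hl17 (l_nd F)
  intro q hq hqS j hj
  have hj3 : j = 0 ∨ j = 1 ∨ j = 2 := by fin_cases j <;> simp
  rcases hj3 with rfl | rfl | rfl
  · rcases dvd0 F hq hj with h1 | h1
    · have hqS' := h1.trans (sj 0)
      have := loc q hq hqS' 0 h1
      rwa [decide_eq_decide.2 (hT q hq hqS')] at this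
    · rw [h1, um1, um2]
      unfold LR
      rw [if_pos rfl]
      exact ⟨rfl, by rw [r1]; rfl⟩
  · rcases dvd1 F hq hj with h1 | h1
    · have hqS' := h1.trans (sj 1)
      have := loc q hq hqS' 1 h1
      rwa [decide_eq_decide.2 (hT q hq hqS')] at this
    · rw [h1, un1, un2]
      unfold LR
      rw [if_neg (by decide), if_pos rfl]
      exact ⟨rfl, by rw [r2]; rfl⟩
  · rcases dvd2 F hq hj with h1 | h1
    · have hqS' := h1.trans (sj 2)
      have := loc q hq hqS' 2 h1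
      rwa [decide_eq_decide.2 (hT q hq hqS')] at this
    · rw [h1, ul1, ul2]
      unfold LR
      rw [if_neg (by decide), if_neg (by decide)]
      exact ⟨rfl, by rw [r3]; rfl⟩

lemma memEE {q : ℕ} (hq : q.Prime) (hqs : q ∣ ∏ j, s j) :
    q ∈ sgF (s' 0) (s' 1) (∏ j, s j) ↔ q ∈ sgF (s' 0) (s' 1) (∏ j, s' j) := by
  have hSS : (∏ j, s j) ∣ ∏ j, s' j := ⟨m * n * l, prod_eq F⟩
  have h1 : q ∈ (∏ j, s j).primeFactors := Nat.mem_primeFactors.2 ⟨hq, hqs, (s_sqf F).ne_zero⟩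
  have h2 : q ∈ (∏ j, s' j).primeFactors :=
    Nat.mem_primeFactors.2 ⟨hq, hqs.trans hSS, F.sqf.ne_zero⟩
  unfold sgF
  rw [mem_filter, mem_filter]
  exact ⟨fun h => ⟨h2, h.2⟩, fun h => ⟨h1, h.2⟩⟩

lemma memTW {q : ℕ} (hq : q.Prime) (hqs : q ∣ ∏ j, s j) :
    q ∈ tw (∏ j, s j) (sgF (s' 0) (s' 1) (∏ j, s j)) ↔
      q ∈ tw (∏ j, s' j) (sgF (s' 0) (s' 1) (∏ j, s' j)) := by
  have hSS : (∏ j, s j) ∣ ∏ j, s' j := ⟨m * n * l, prod_eq F⟩
  have h1 : q ∈ (∏ j, s j).primeFactors := Nat.mem_primeFactors.2 ⟨hq, hqs, (s_sqf F).ne_zero⟩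
  have h2 : q ∈ (∏ j, s' j).primeFactors :=
    Nat.mem_primeFactors.2 ⟨hq, hqs.trans hSS, F.sqf.ne_zero⟩
  unfold tw
  rw [mem_filter, mem_filter, memEE F hq hqs]
  exact ⟨fun h => ⟨h2, h.2⟩, fun h => ⟨h1, h.2⟩⟩

end

/-- **SURV** (all classes of the data satisfy the local conditions at the three large primes). -/
theorem SURV : St_SURV := by
  intro s s' m n l F
  have hSS : (∏ j, s j) ∣ ∏ j, s' j := ⟨m * n * l, prod_eq F⟩
  have hS0 := (s_sqf F).ne_zero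
  constructor
  · rintro ⟨c, t⟩ ⟨c1, t1, c2, c3, cs, ts, loc⟩
    simp only at c1 t1 c2 c3 cs ts loc
    have hd := dat F (Or.inl rfl : (1 : ℕ) = 1 ∨ (1 : ℕ) = 17)
    have key := finish F (Or.inl rfl : (1 : ℕ) = 1 ∨ (1 : ℕ) = 17)
      (T := sgF (s' 0) (s' 1) (∏ j, s j)) (T' := sgF (s' 0) (s' 1) (∏ j, s' j))
      (fun q hq hqs => memEE F hq hqs)
      (fun q hq hqs => by
        rw [Nat.cast_one, one_mul, one_mul]
        exact hd.memE hq hqs)
      c1 t1 c2 c3 (fun q hq h => by rw [one_mul]; exact cs q hq h)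
      (fun q hq h => by rw [one_mul]; exact ts q hq h)
      (fun q hq hqs => loc q (Nat.mem_primeFactors.2 ⟨hq, hqs, hS0⟩))
      (fun h => absurd h (by norm_num))
    refine ⟨c1, t1, c2, c3, fun q hq h => (cs q hq h).trans hSS,
      fun q hq h => (ts q hq h).trans (Nat.mul_dvd_mul_left _ hSS), fun q hq => ?_⟩
    exact key q (Nat.prime_of_mem_primeFactors hq) (Nat.dvd_of_mem_primeFactors hq)
  · rintro ⟨c, t⟩ ⟨c1, t1, c2, c3, cs, ts, loc⟩
    simp only at c1 t1 c2 c3 cs ts loc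
    have hp17 : Nat.Prime 17 := by norm_num
    have hd := dat F (Or.inr rfl : (17 : ℕ) = 1 ∨ (17 : ℕ) = 17)
    have h17' := nd17 F
    have h17 : ¬ 17 ∣ ∏ j, s j := fun h => h17' (h.trans hSS)
    have loc17 : sgn 17 c = false ∧ sgn 17 t = dv 17 c := by
      have h1 := loc 17 (Nat.mem_primeFactors.2 ⟨hp17, dvd_mul_right _ _,
        mul_ne_zero (by norm_num) hS0⟩)
      unfold L17 at h1
      rw [if_pos rfl] at h1
      exact h1
    have key := finish F (Or.inr rfl : (17 : ℕ) = 1 ∨ (17 : ℕ) = 17)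
      (T := tw (∏ j, s j) (sgF (s' 0) (s' 1) (∏ j, s j)))
      (T' := tw (∏ j, s' j) (sgF (s' 0) (s' 1) (∏ j, s' j)))
      (fun q hq hqs => memTW F hq hqs)
      (fun q hq hqs => by
        have hq17 : q ≠ 17 := fun hh => h17' (hh ▸ hqs)
        have hpf : q ∈ (∏ j, s' j).primeFactors := Nat.mem_primeFactors.2 ⟨hq, hqs, F.sqf.ne_zero⟩
        obtain ⟨e0, e1, e2⟩ := hd.memE hq hqs
        have htw : q ∈ tw (∏ j, s' j) (sgF (s' 0) (s' 1) (∏ j, s' j)) ↔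
            ¬ (q ∈ sgF (s' 0) (s' 1) (∏ j, s' j) ↔ jacobiSym 17 q = -1) := by
          unfold tw
          rw [mem_filter]
          exact and_iff_right hpf
        refine ⟨fun h' => ?_, fun h' => ?_, fun h' => ?_⟩
        · rw [htw, e0 h', ← jac_tw hq hq17]
          · push_cast
            rw [mul_neg]
          · rw [dvd_neg, Int.natCast_dvd_natCast]
            exact cop_nd hq hd.cop01 h'
        · rw [htw, e1 h', ← jac_tw hq hq17]
          · push_cast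
            rw [mul_neg]
          · rw [dvd_neg, Int.natCast_dvd_natCast]
            exact cop_nd hq hd.cop01.symm h'
        · rw [htw, e2 h', ← jac_tw hq hq17]
          · push_cast
            rfl
          · rw [Int.natCast_dvd_natCast]
            exact fun h'' => cop_nd hq hd.cop012.symm h' (h''.mul_right _))
      c1 t1 c2 c3 cs ts
      (fun q hq hqs => by
        have hq17 : q ≠ 17 := fun hh => h17 (hh ▸ hqs)
        have h1 := loc q (Nat.mem_primeFactors.2 ⟨hq, hqs.mul_left _,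
          mul_ne_zero (by norm_num) hS0⟩)
        unfold L17 at h1
        rw [if_neg hq17] at h1
        exact h1)
      (fun _ => loc17)
    refine ⟨c1, t1, c2, c3, fun q hq h => (cs q hq h).trans (Nat.mul_dvd_mul_left _ hSS),
      fun q hq h => (ts q hq h).trans (Nat.mul_dvd_mul_left _ (Nat.mul_dvd_mul_left _ hSS)),
      fun q hq => ?_⟩
    have hqp := Nat.prime_of_mem_primeFactors hq
    by_cases hq17 : q = 17
    · subst hq17
      unfold L17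
      rw [if_pos rfl]
      exact loc17
    · unfold L17
      rw [if_neg hq17]
      refine key q hqp ?_
      rcases (hqp.dvd_mul).1 (Nat.dvd_of_mem_primeFactors hq) with h1 | h1
      · exact absurd ((Nat.prime_dvd_prime_iff_eq hqp hp17).1 h1) hq17
      · exact h1

end Pool.Agent.Y232.MT
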